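import Pool.Agent.Helper42.SLC.Goals
import Pool.Agent.Helper12.SL.GA7

/-! # Packet RL of the project SLC -/

set_option linter.unusedSectionVars false

namespace Pool.Agent.Helper93.SLC

open Pool.Agent.Helper17.SL Pool.Agent.Helper42.SLC
open Pool.Agent.Helper51.SigLeo Pool.Agent.Helper51.SixExp NumberField Module TensorProduct

universe u v w x y z

lemma two_cases {α : Type*} [Fintype α] (h : Fintype.card α = 2) {a b : α} (hab : a ≠ b) (z : α) :
    z = a ∨ z = b := by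
  classical
  by_contra hz
  push Not at hz
  have h1 : ({z, a, b} : Finset α).card = 3 := by
    rw [Finset.card_insert_of_notMem, Finset.card_insert_of_notMem, Finset.card_singleton]
    · simpa using hab
    · simp only [Finset.mem_insert, Finset.mem_singleton, not_or]
      exact hz
  have h2 := Finset.card_le_univ ({z, a, b} : Finset α)
  omega

lemma two_pairs {α : Type*} [Fintype α] (h : Fintype.card α = 2) {a b x y : α} (hab : a ≠ b)
    (hxy : x ≠ y) : (x = a ∧ y = b) ∨ (x = b ∧ y = a) := by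
  rcases two_cases h hab x with rfl | rfl
  · rcases two_cases h hab y with rfl | rfl
    · exact absurd rfl hxy
    · exact Or.inl ⟨rfl, rfl⟩
  · rcases two_cases h hab y with rfl | rfl
    · exact Or.inr ⟨rfl, rfl⟩
    · exact absurd rfl hxy

/-- If one embedding of a quadratic field is real, all are. -/
lemma all_real {F : Type*} [Field F] [NumberField F] (h2 : finrank ℚ F = 2) (s : F →+* ℂ)
    (hs : ComplexEmbedding.conjugate s = s) (s' : F →+* ℂ) :
    ComplexEmbedding.conjugate s' = s' := by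
  by_cases h : s' = s
  · rw [h, hs]
  · have hc : Fintype.card (F →+* ℂ) = 2 := by rw [NumberField.Embeddings.card, h2]
    rcases two_cases hc h (ComplexEmbedding.conjugate s') with h1 | h1
    · exact h1
    · exfalso
      apply h
      have h3 : ComplexEmbedding.conjugate (ComplexEmbedding.conjugate s') =
          ComplexEmbedding.conjugate s := by rw [h1]
      rw [hs] at h3
      rw [← h3]
      ext x
      simp

/-- two elements of a CM type of a field of degree at least four -/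
lemma exists_two {K : Type*} [Field K] [NumberField K] (h4 : finrank ℚ K = 4) {S : Set (K →+* ℂ)}
    (hS : IsCMType S) : ∃ φ₁ ∈ S, ∃ φ₂ ∈ S, φ₁ ≠ φ₂ := by
  classical
  have hc : Fintype.card (K →+* ℂ) = 4 := by rw [NumberField.Embeddings.card, h4]
  have hconj : ∀ φ : K →+* ℂ, ComplexEmbedding.conjugate (ComplexEmbedding.conjugate φ) = φ := by
    intro φ
    ext x
    simp
  have hex : ∀ φ : K →+* ℂ, φ ∈ S ∨ ComplexEmbedding.conjugate φ ∈ S := by
    intro φ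
    by_cases h : φ ∈ S
    · exact Or.inl h
    · right
      by_contra h2
      exact h ((hS φ).mpr h2)
  obtain ⟨φ₁, hφ₁⟩ : ∃ φ₁, φ₁ ∈ S := by
    have hne : Nonempty (K →+* ℂ) := by
      rw [← Fintype.card_pos_iff]
      omega
    obtain ⟨φ⟩ := hne
    rcases hex φ with h | h
    · exact ⟨_, h⟩
    · exact ⟨_, h⟩
  obtain ⟨ψ, hψ⟩ : ∃ ψ, ψ ∉ ({φ₁, ComplexEmbedding.conjugate φ₁} : Finset (K →+* ℂ)) := by
    by_contra hall
    push Not at hall
    have h1 : (Finset.univ : Finset (K →+* ℂ)) ⊆ {φ₁, ComplexEmbedding.conjugate φ₁} :=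
      fun ψ _ ↦ hall ψ
    have h2 := Finset.card_le_card h1
    have h3 := Finset.card_le_two (a := φ₁) (b := ComplexEmbedding.conjugate φ₁)
    rw [Finset.card_univ, hc] at h2
    omega
  simp only [Finset.mem_insert, Finset.mem_singleton, not_or] at hψ
  rcases hex ψ with h | h
  · exact ⟨φ₁, hφ₁, ψ, h, fun h2 ↦ hψ.1 h2.symm⟩
  · refine ⟨φ₁, hφ₁, _, h, fun h2 ↦ hψ.2 ?_⟩
    rw [h2, hconj]

section main

variable {k₀ : Type u} [Field k₀] [NumberField k₀] {K : Type v} [Field K]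
  [NumberField K] {N : Type x}
  [Field N] [NumberField N] [Algebra k₀ K] [Algebra k₀ N] [Algebra K N]
  [IsScalarTower k₀ K N] [IsGalois k₀ N]
  [Fintype (N ≃ₐ[k₀] N)] {Ω : Type y} [Field Ω]
  {p : ℕ} {k : Type z} [NormedField k]

/-- case (2), for one order of the two embeddings -/
lemma case_two (ιinf : Ω →+* ℂ) (ιp : Ω →+* k) (Λ : IwasawaLog p k)
    (θ θ' : (N ≃ₐ[k₀] N) →* kˣ) (c : K →+* K)
    (hc : ∀ φ : K →+* ℂ, φ.comp c = ComplexEmbedding.conjugate φ)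
    (hK2 : finrank k₀ K = 2)
    (hA : ∀ g : N ≃ₐ[k₀] N, (∀ x : K, g (algebraMap K N x) = algebraMap K N x) → θ' g = θ g)
    (hB : ∀ g : N ≃ₐ[k₀] N, (∃ x : K, g (algebraMap K N x) ≠ algebraMap K N x) → θ' g = -θ g)
    (τ₁ τ₂ : N →+* Ω)
    (hconj : ιinf.comp (τ₁.comp (algebraMap K N)) ≠
      ComplexEmbedding.conjugate (ιinf.comp (τ₂.comp (algebraMap K N))))
    (hrel : ∀ v w, tw θ (logUnits Λ (ιp.comp τ₁)) v * tw θ' (logUnits Λ (ιp.comp τ₂)) w =
      tw θ (logUnits Λ (ιp.comp τ₂)) v * tw θ' (logUnits Λ (ιp.comp τ₁)) w)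
    (σ σ' : N →+* k) (h1 : σ.comp (algebraMap k₀ N) = (ιp.comp τ₁).comp (algebraMap k₀ N))
    (h2 : σ'.comp (algebraMap k₀ N) = (ιp.comp τ₂).comp (algebraMap k₀ N)) :
    ∃ s : k, (s = 1 ∨ s = -1) ∧
      (∀ v w, s * tw θ (logUnits Λ σ) v * tw θ' (logUnits Λ σ') w =
        tw θ (logUnits Λ σ') v * tw θ' (logUnits Λ σ) w) ∧
      ∀ t : N ≃ₐ[k₀] N, (σ'.comp (algebraMap K N)).comp c =
        (σ.comp (t : N →+* N)).comp (algebraMap K N) → s * ((θ' t : kˣ) : k) = -((θ t : kˣ) : k) := by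
  have hfd : FiniteDimensional k₀ N := FiniteDimensional.right ℚ k₀ N
  obtain ⟨g₁, hg₁⟩ := PkGA7.thm k₀ N k (ιp.comp τ₁) σ h1.symm
  obtain ⟨g₂, hg₂⟩ := PkGA7.thm k₀ N k (ιp.comp τ₂) σ' h2.symm
  have hsgn : ∀ g : N ≃ₐ[k₀] N, ∃ e : k, (e = 1 ∨ e = -1) ∧ ((θ' g : kˣ) : k) = e * ((θ g : kˣ) : k) := by
    intro g
    by_cases h : ∀ x : K, g (algebraMap K N x) = algebraMap K N x
    · exact ⟨1, Or.inl rfl, by rw [hA g h, one_mul]⟩
    · push Not at h
      exact ⟨-1, Or.inr rfl, by rw [hB g h, Units.val_neg, neg_one_mul]⟩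
  obtain ⟨e₁, he₁, hθ₁⟩ := hsgn g₁
  obtain ⟨e₂, he₂, hθ₂⟩ := hsgn g₂
  have hee₁ : e₁ * e₁ = 1 := by rcases he₁ with h | h <;> rw [h] <;> ring
  have hee₂ : e₂ * e₂ = 1 := by rcases he₂ with h | h <;> rw [h] <;> ring
  refine ⟨e₁ * e₂, ?_, ?_, ?_⟩
  · rcases he₁ with h | h <;> rcases he₂ with h' | h' <;> rw [h, h'] <;> simp
  · intro v w
    rw [hg₁, hg₂, tw_logUnits_comp, tw_logUnits_comp, tw_logUnits_comp, tw_logUnits_comp, hθ₁, hθ₂]
    linear_combination (e₁ * ((θ g₁ : kˣ) : k) * ((θ g₂ : kˣ) : k)) * (e₂ * e₂) * hrel v w +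
      (e₁ * ((θ g₁ : kˣ) : k) * ((θ g₂ : kˣ) : k)) * (tw θ (logUnits Λ (ιp.comp τ₂)) v *
        tw θ' (logUnits Λ (ιp.comp τ₁)) w) * hee₂
  · intro t ht
    -- `r` is not trivial on `K`
    have hr : ∃ x : K, (g₁ * t * g₂⁻¹ : N ≃ₐ[k₀] N) (algebraMap K N x) ≠ algebraMap K N x := by
      by_contra hcon
      push Not at hcon
      have hquad : Algebra.IsQuadraticExtension k₀ K := ⟨hK2⟩
      set q : K ≃ₐ[k₀] K := g₂.restrictNormal K with hq
      have hqc : ∀ x : K, algebraMap K N (q x) = g₂ (algebraMap K N x) := fun x ↦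
        AlgEquiv.restrictNormal_commutes g₂ K x
      have hgt : ∀ x : K, g₁ (t (algebraMap K N x)) = algebraMap K N (q x) := by
        intro x
        have h3 := hcon (q x)
        rw [hqc] at h3 ⊢
        have h4 : (g₁ * t * g₂⁻¹ : N ≃ₐ[k₀] N) (g₂ (algebraMap K N x)) =
            g₁ (t (algebraMap K N x)) := by
          show g₁ (t (g₂⁻¹ (g₂ (algebraMap K N x)))) = _
          congr 2
          exact g₂.symm_apply_apply _
        rw [h4] at h3
        exact h3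
      have h5 : ∀ x : K, τ₂ (algebraMap K N (q (c x))) = τ₁ (algebraMap K N (q x)) := by
        intro x
        apply ιp.injective
        have h6 := RingHom.congr_fun ht x
        rw [hg₁, hg₂] at h6
        rw [hqc, ← hgt x]
        exact h6
      apply hconj
      ext y
      obtain ⟨x, rfl⟩ := q.surjective y
      have h7 := RingHom.congr_fun (hc ((ιinf.comp (τ₂.comp (algebraMap K N))).comp (q : K →+* K))) x
      have h8 : ιinf (τ₂ (algebraMap K N (q (c x)))) = ιinf (τ₁ (algebraMap K N (q x))) := by rw [h5 x]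
      exact h8.symm.trans h7
    have h9 := hB _ hr
    rw [map_mul, map_mul, map_mul, map_mul, map_inv, map_inv] at h9
    have h10 : θ' g₁ * θ' t * (θ' g₂)⁻¹ * (θ' g₂ * θ g₂) = -(θ g₁ * θ t * (θ g₂)⁻¹) * (θ' g₂ * θ g₂) := by
      rw [h9]
    have h11 : θ' g₁ * θ' t * θ g₂ = -(θ g₁ * θ t * θ' g₂) := by
      have e1 : θ' g₁ * θ' t * (θ' g₂)⁻¹ * (θ' g₂ * θ g₂) = θ' g₁ * θ' t * θ g₂ := by
        rw [mul_assoc (θ' g₁ * θ' t), inv_mul_cancel_left]
      have e2 : -(θ g₁ * θ t * (θ g₂)⁻¹) * (θ' g₂ * θ g₂) = -(θ g₁ * θ t * θ' g₂) := by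
        rw [neg_mul, mul_comm (θ' g₂) (θ g₂), mul_assoc (θ g₁ * θ t), inv_mul_cancel_left]
      rw [← e1, ← e2, h10]
    have h12 : ((θ' g₁ : kˣ) : k) * ((θ' t : kˣ) : k) * ((θ g₂ : kˣ) : k) =
        -(((θ g₁ : kˣ) : k) * ((θ t : kˣ) : k) * ((θ' g₂ : kˣ) : k)) := by
      have := congrArg (fun z : kˣ ↦ (z : k)) h11
      simpa using this
    rw [hθ₁, hθ₂] at h12
    have hu : ((θ g₁ : kˣ) : k) * ((θ g₂ : kˣ) : k) ≠ 0 :=
      mul_ne_zero (Units.ne_zero _) (Units.ne_zero _)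
    apply mul_left_cancel₀ hu
    linear_combination e₂ * h12 - (((θ g₁ : kˣ) : k) * ((θ t : kˣ) : k) * ((θ g₂ : kˣ) : k)) * hee₂

end main

theorem rl : S_FRN.{u, v, w, x, y, z} → S_SGN.{u, v, w, x, z} → S_NVP.{u, x, y, z} →
    S_RL.{u, v, w, x, y, z} := by
  intro hFRN hSGN hNVP
  intro k₀ _ _ K _ _ _ H _ _ N _ _ _ _ _ _ _ _ _ _ _ _ Ω _ _ _ _ p _ k _ _ _ _ _ ιinf ιp S χ Λ θ θ' c
    hc hk2 hK2 hS hχ hCθ hCθ' hne hone hfail
  have hchar : CharZero k := charZero_of_padic p (k := k)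
  have hfd : FiniteDimensional k₀ N := FiniteDimensional.right ℚ k₀ N
  have hfdK : FiniteDimensional K N := FiniteDimensional.right ℚ K N
  have h4 : finrank ℚ K = 4 := by
    rw [← finrank_mul_finrank ℚ k₀ K, hk2, hK2]
  obtain ⟨hA, hB⟩ := hSGN k₀ K H N k χ θ θ' hK2 hCθ hCθ' hne
  obtain ⟨φ₁, hφ₁, φ₂, hφ₂, hφ⟩ := exists_two h4 hS
  obtain ⟨κ₁, hκ₁⟩ := exists_lift_embedding ιinf φ₁
  obtain ⟨κ₂, hκ₂⟩ := exists_lift_embedding ιinf φ₂
  obtain ⟨τ₁, hτ₁⟩ := exists_extend_embedding (H := N) κ₁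
  obtain ⟨τ₂, hτ₂⟩ := exists_extend_embedding (H := N) κ₂
  have hκ : κ₁ ≠ κ₂ := by
    intro h
    apply hφ
    rw [← hκ₁, ← hκ₂, h]
  have hrel := hFRN k₀ K H N Ω p k ιinf ιp S χ Λ θ θ' τ₁ τ₂ hK2 h4 hS hχ hCθ hCθ' hfail
    (by rw [hτ₁, hκ₁]; exact hφ₁) (by rw [hτ₂, hκ₂]; exact hφ₂) (by rw [hτ₁, hτ₂]; exact hκ)
  by_cases hres : τ₁.comp (algebraMap k₀ N) = τ₂.comp (algebraMap k₀ N)
  · exfalso
    obtain ⟨t, ht⟩ := PkGA7.thm k₀ N Ω τ₁ τ₂ hres
    have htK : ∃ x : K, t (algebraMap K N x) ≠ algebraMap K N x := by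
      by_contra hcon
      push Not at hcon
      apply hκ
      rw [← hτ₁, ← hτ₂, ht]
      ext x
      show τ₁ (algebraMap K N x) = τ₁ (t (algebraMap K N x))
      rw [hcon x]
    have hθt := hB t htK
    -- `k₀` is totally complex
    have hTC : IsTotallyComplex k₀ := by
      by_contra hTC
      rw [isTotallyComplex_iff] at hTC
      push Not at hTC
      obtain ⟨v, hv⟩ := hTC
      rw [InfinitePlace.not_isComplex_iff_isReal, InfinitePlace.isReal_iff, ComplexEmbedding.isReal_iff] at hv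
      have hTR : IsTotallyReal k₀ := ⟨fun v' ↦ by
        rw [InfinitePlace.isReal_iff, ComplexEmbedding.isReal_iff]
        exact all_real hk2 _ hv _⟩
      have hrr : φ₁.comp (algebraMap k₀ K) = φ₂.comp (algebraMap k₀ K) := by
        rw [← hκ₁, ← hκ₂, ← hτ₁, ← hτ₂]
        ext a
        have h6 := RingHom.congr_fun hres a
        rw [RingHom.comp_apply, RingHom.comp_apply, IsScalarTower.algebraMap_apply k₀ K N] at h6
        show ιinf (τ₁ (algebraMap K N (algebraMap k₀ K a))) = ιinf (τ₂ (algebraMap K N (algebraMap k₀ K a)))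
        rw [h6]
      rcases eq_or_eq_conjugate hK2 φ₁ φ₂ hrr with h7 | h7
      · exact hφ h7.symm
      · rw [h7] at hφ₂
        exact (hS φ₁).mp hφ₁ hφ₂
    obtain ⟨ho, ho'⟩ := hone hTC
    obtain ⟨ρ⟩ : Nonempty (N →+* ℂ) := inferInstance
    have hρ : ∀ c' : N ≃ₐ[k₀] N, ComplexEmbedding.conjugate ρ ≠ ρ.comp (c' : N →+* N) := by
      intro c' hcc
      apply conjugate_ne (ρ.comp (algebraMap k₀ N))
      rw [← ComplexEmbedding.conjugate_comp, hcc]
      ext a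
      show ρ (c' (algebraMap k₀ N a)) = ρ (algebraMap k₀ N a)
      rw [AlgEquiv.commutes]
    obtain ⟨v, hv⟩ := hNVP k₀ N Ω p k ιp Λ θ τ₁ ρ ho (fun c' hc' ↦ absurd hc' (hρ c'))
    obtain ⟨w, hw⟩ := hNVP k₀ N Ω p k ιp Λ θ' τ₁ ρ ho' (fun c' hc' ↦ absurd hc' (hρ c'))
    have h8 := hrel v w
    have h9 : ιp.comp τ₂ = (ιp.comp τ₁).comp (t : N →+* N) := by
      rw [ht]
      rfl
    rw [h9, tw_logUnits_comp, tw_logUnits_comp, hθt, Units.val_neg] at h8
    have h10 : (2 : k) * ((θ t : kˣ) : k) * (tw θ (logUnits Λ (ιp.comp τ₁)) v *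
        tw θ' (logUnits Λ (ιp.comp τ₁)) w) = 0 := by
      linear_combination -h8
    have h11 : (2 : k) * ((θ t : kˣ) : k) ≠ 0 := mul_ne_zero two_ne_zero (Units.ne_zero _)
    exact (mul_ne_zero h11 (mul_ne_zero hv hw)) h10
  · intro σ σ' hσ
    have hcard : Fintype.card (k₀ →+* k) = 2 := by rw [NumberField.Embeddings.card, hk2]
    have hres' : (ιp.comp τ₁).comp (algebraMap k₀ N) ≠ (ιp.comp τ₂).comp (algebraMap k₀ N) := by
      intro h
      apply hres
      ext a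
      apply ιp.injective
      exact RingHom.congr_fun h a
    have hconj₁ : φ₁ ≠ ComplexEmbedding.conjugate φ₂ := by
      intro h
      rw [h] at hφ₁
      exact (hS φ₂).mp hφ₂ hφ₁
    have hconj₂ : φ₂ ≠ ComplexEmbedding.conjugate φ₁ := by
      intro h
      rw [h] at hφ₂
      exact (hS φ₁).mp hφ₁ hφ₂
    rcases two_pairs hcard hres' hσ with ⟨e1, e2⟩ | ⟨e1, e2⟩
    · exact case_two ιinf ιp Λ θ θ' c hc hK2 hA hB τ₁ τ₂
        (by rw [hτ₁, hτ₂, hκ₁, hκ₂]; exact hconj₁) hrel σ σ' e1 e2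
    · exact case_two ιinf ιp Λ θ θ' c hc hK2 hA hB τ₂ τ₁
        (by rw [hτ₁, hτ₂, hκ₁, hκ₂]; exact hconj₂) (fun v w ↦ (hrel v w).symm) σ σ' e1 e2

end Pool.Agent.Helper93.SLC
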